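import Mathlib

/-!
# One Cantor partner for all tree distance sets

There is a single Cantor set `L ⊆ ℝ` such that for every infinite set `K ⊆ ℝ` (in particular for
every Cantor set `K`) and every finite tree `G` the tree distance set of `K × L` has nonempty
interior.

Proof: any Cantor set `L` of positive Lebesgue measure works. Fix pairwise different first
coordinates `k_v ∈ K`, one for every vertex. Since `L` has positive measure, for all sufficiently
small `u_v` the translates `L - u_v` have a common point `t`, so the points `(k_v, t + u_v)` lie in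
`K × L`. As the graph is a tree, the differences `|u_v - u_w|` over the edges can be prescribed
arbitrarily, so the distances over the edges fill an open box.
-/

set_option autoImplicit false

open Set Filter Topology MeasureTheory

namespace Pool.Agent.Results.MP_d100af_an.OnePartner

/-- A Cantor set in `ℝ`: a nonempty compact, totally disconnected subset of `ℝ` without isolated
points. -/
def IsCantorSet (K : Set ℝ) : Prop :=
  K.Nonempty ∧ IsCompact K ∧ IsTotallyDisconnected K ∧ Preperfect K

/-- The product `K × L` as a subset of the Euclidean plane. -/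
def prodSet (K L : Set ℝ) : Set (EuclideanSpace ℝ (Fin 2)) := {p | p 0 ∈ K ∧ p 1 ∈ L}

/-- The tree distance set of `X` for the graph `G` on the vertex set `V`, as a set of functions on
the edge set of `G`: all families of distances `(|y v - y w|)_{v ~ w}` where `y` runs over the
families of pairwise distinct points of `X` indexed by the vertices. -/
def treeDistSet {V : Type} (G : SimpleGraph V) (X : Set (EuclideanSpace ℝ (Fin 2))) :
    Set (G.edgeSet → ℝ) :=
  {d | ∃ y : V → EuclideanSpace ℝ (Fin 2), Function.Injective y ∧ (∀ v, y v ∈ X) ∧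
    ∀ (v w : V) (h : G.Adj v w), d ⟨s(v, w), h⟩ = dist (y v) (y w)}

/-- There is a Cantor set of positive Lebesgue measure. -/
theorem exists_fat : ∃ L : Set ℝ, IsCantorSet L ∧ 0 < volume L := by
  -- an open set of measure less than `1` which contains all rational numbers
  obtain ⟨U, hU1, hU2, hU3⟩ := (range ((↑) : ℚ → ℝ)).exists_isOpen_lt_of_lt (μ := volume) 1
    (by rw [(countable_range _).measure_zero]; exact one_pos)
  have hFc : IsClosed (Icc (0 : ℝ) 1 \ U) := isClosed_Icc.sdiff hU2
  obtain ⟨W, D, hW, hD, hWD⟩ := exists_countable_union_perfect_of_isClosed hFc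
  have hDF : D ⊆ Icc (0 : ℝ) 1 \ U := by rw [hWD]; exact subset_union_right
  have hFpos : 0 < volume (Icc (0 : ℝ) 1 \ U) := by
    have h1 : volume (Icc (0 : ℝ) 1) ≤ volume (Icc (0 : ℝ) 1 \ U) + volume U := by
      refine (measure_mono ?_).trans (measure_union_le _ _)
      intro x hx
      by_cases h : x ∈ U
      · exact Or.inr h
      · exact Or.inl ⟨hx, h⟩
    rw [Real.volume_Icc] at h1
    norm_num at h1
    by_contra hcon
    rw [not_lt, nonpos_iff_eq_zero] at hcon
    rw [hcon, zero_add] at h1
    exact absurd h1 (not_le.2 hU3)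
  have hDpos : 0 < volume D := by
    have h1 : volume (Icc (0 : ℝ) 1 \ U) ≤ volume W + volume D := by
      rw [hWD]; exact measure_union_le _ _
    rw [hW.measure_zero, zero_add] at h1
    exact hFpos.trans_le h1
  refine ⟨D, ⟨?_, ?_, ?_, hD.acc⟩, hDpos⟩
  · by_contra h
    rw [not_nonempty_iff_eq_empty] at h
    rw [h] at hDpos
    simp at hDpos
  · exact isCompact_Icc.of_isClosed_subset hD.closed (hDF.trans sdiff_subset)
  · intro t ht htc x hx y hy
    by_contra hxy
    have key : ∀ a b : ℝ, a ∈ t → b ∈ t → a < b → False := by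
      intro a b ha hb hab
      obtain ⟨q, hq1, hq2⟩ := exists_rat_btwn hab
      have h1 : (q : ℝ) ∈ t := htc.Icc_subset ha hb ⟨hq1.le, hq2.le⟩
      exact (hDF (ht h1)).2 (hU1 ⟨q, rfl⟩)
    rcases lt_or_gt_of_ne hxy with h | h
    · exact key x y hx hy h
    · exact key y x hy hx h

/-- Translates of a compact set of positive measure by small numbers have a common point. -/
theorem common_point {L : Set ℝ} (hL : IsCompact L) (hpos : 0 < volume L) (n : ℕ) :
    ∃ η : ℝ, 0 < η ∧ ∀ (V : Type) [Fintype V], Fintype.card V ≤ n → ∀ u : V → ℝ,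
      (∀ v, |u v| < η) → ∃ t : ℝ, ∀ v, t + u v ∈ L := by
  have hfin : volume L ≠ ⊤ := hL.measure_lt_top.ne
  -- an open neighbourhood of slightly larger measure
  have hlt : volume L < volume L + volume L / (n + 1) := by
    refine ENNReal.lt_add_right hfin ?_
    rw [Ne, ENNReal.div_eq_zero_iff, not_or]
    exact ⟨hpos.ne', by simp⟩
  obtain ⟨U, hU1, hU2, hU3⟩ := L.exists_isOpen_lt_of_lt _ hlt
  obtain ⟨η, hη, hηU⟩ := hL.exists_thickening_subset_open hU2 hU1
  refine ⟨η, hη, fun V _ hV u hu => ?_⟩
  have hUfin : volume U ≠ ⊤ := by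
    refine (hU3.trans_le le_top).ne
  -- the translates
  have hsub : ∀ v, (fun t => t + u v) ⁻¹' L ⊆ U := by
    intro v t ht
    refine hηU ?_
    rw [Metric.mem_thickening_iff]
    refine ⟨t + u v, ht, ?_⟩
    rw [Real.dist_eq]
    have := hu v
    rw [show t - (t + u v) = -u v by ring, abs_neg]
    exact this
  have hmeas : ∀ v, volume ((fun t => t + u v) ⁻¹' L) = volume L := fun v =>
    measure_preimage_add_right volume (u v) L
  have hms : ∀ v, MeasurableSet ((fun t => t + u v) ⁻¹' L) := fun v =>
    (measurable_add_const (u v)) hL.measurableSet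
  have hdiff : ∀ v, volume (U \ (fun t => t + u v) ⁻¹' L) ≤ volume L / (n + 1) := by
    intro v
    rw [measure_sdiff (hsub v) (hms v).nullMeasurableSet (by rw [hmeas]; exact hfin), hmeas]
    rw [tsub_le_iff_left]
    exact hU3.le
  by_contra hcon
  push Not at hcon
  have hcov : U ⊆ ⋃ v, (U \ (fun t => t + u v) ⁻¹' L) := by
    intro t ht
    obtain ⟨v, hv⟩ := hcon t
    exact mem_iUnion.2 ⟨v, ht, hv⟩
  have h1 : volume U ≤ ∑ v : V, volume (U \ (fun t => t + u v) ⁻¹' L) :=
    (measure_mono hcov).trans (measure_iUnion_fintype_le _ _)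
  have h2 : volume U ≤ n * (volume L / (n + 1)) := by
    refine h1.trans ((Finset.sum_le_card_nsmul _ _ _ (fun v _ => hdiff v)).trans ?_)
    rw [nsmul_eq_mul]
    gcongr
    exact_mod_cast hV
  have h3 : (n : ENNReal) * (volume L / (n + 1)) < volume L := by
    rw [← mul_div_assoc, ENNReal.div_lt_iff (by simp) (by simp), mul_comm]
    refine (ENNReal.mul_lt_mul_iff_right hpos.ne' hfin).2 ?_
    exact_mod_cast Nat.lt_succ_self n
  have h4 : volume L ≤ volume U := measure_mono hU1
  exact absurd (h4.trans h2) (not_le.2 h3)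

/-- In a finite tree, the differences of a function on the vertices can be prescribed, up to sign,
on the edges, by a function with small values. -/
theorem potential {V : Type} [Fintype V] (G : SimpleGraph V) (hG : G.IsTree) (a : Sym2 V → ℝ)
    (b : ℝ) (ha0 : ∀ e, 0 ≤ a e) (hab : ∀ e, a e ≤ b) :
    ∃ u : V → ℝ, (∀ v, 0 ≤ u v ∧ u v ≤ Fintype.card V * b) ∧
      ∀ v w, G.Adj v w → |u v - u w| = a s(v, w) := by
  obtain ⟨r⟩ : Nonempty V := hG.connected.nonempty
  choose p hp hpu using hG.existsUnique_path r
  refine ⟨fun v => ((p v).edges.map a).sum, fun v => ⟨?_, ?_⟩, ?_⟩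
  · refine List.sum_nonneg ?_
    intro x hx
    obtain ⟨e, -, rfl⟩ := List.mem_map.1 hx
    exact ha0 e
  · have h1 : ((p v).edges.map a).sum ≤ ((p v).edges.map a).length • b := by
      refine List.sum_le_card_nsmul _ _ ?_
      intro x hx
      obtain ⟨e, -, rfl⟩ := List.mem_map.1 hx
      exact hab e
    rw [List.length_map, SimpleGraph.Walk.length_edges, nsmul_eq_mul] at h1
    refine h1.trans ?_
    have h2 : (p v).length < Fintype.card V := (hp v).length_lt
    have hb : 0 ≤ b := (ha0 s(r, r)).trans (hab _)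
    have h3 : ((p v).length : ℝ) ≤ Fintype.card V := by exact_mod_cast h2.le
    exact mul_le_mul_of_nonneg_right h3 hb
  · have key : ∀ v w (h : G.Adj v w), v ∈ (p w).support →
        ((p w).edges.map a).sum = ((p v).edges.map a).sum + a s(v, w) := by
      intro v w h hv
      have h1 := hG.isAcyclic.path_concat (hp v) (hp w) h hv
      rw [h1, SimpleGraph.Walk.edges_concat]
      simp [List.concat_eq_append]
    intro v w h
    by_cases hv : v ∈ (p w).support
    · simp only
      rw [key v w h hv]
      rw [show ((p v).edges.map a).sum - (((p v).edges.map a).sum + a s(v, w)) = -a s(v, w) by ring,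
        abs_neg, abs_of_nonneg (ha0 _)]
    · have hw : w ∈ (p v).support :=
        hG.isAcyclic.mem_support_of_ne_mem_support_of_adj_of_isPath (hp v) (hp w) h hv
      simp only
      rw [key w v h.symm hw, add_sub_cancel_left, Sym2.eq_swap, abs_of_nonneg (ha0 _)]

/-- **Theorem.** There is one Cantor set `L ⊆ ℝ` such that for every infinite set `K ⊆ ℝ` (in
particular, for every Cantor set `K`) and for every finite tree `G`, the tree distance set of
`K × L` for `G` has nonempty interior. -/
theorem result : ∃ L : Set ℝ, IsCantorSet L ∧ ∀ K : Set ℝ, K.Infinite →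
    ∀ (V : Type) [Fintype V] (G : SimpleGraph V), G.IsTree →
      (interior (treeDistSet G (prodSet K L))).Nonempty := by
  obtain ⟨L, hL, hpos⟩ := exists_fat
  refine ⟨L, hL, fun K hK V _ G hG => ?_⟩
  obtain ⟨η, hη, hcom⟩ := common_point hL.2.1 hpos (Fintype.card V)
  -- pairwise different first coordinates
  obtain ⟨k, hk⟩ : ∃ k : V → ℝ, Function.Injective k ∧ ∀ v, k v ∈ K := by
    have e : V ≃ Fin (Fintype.card V) := Fintype.equivFin V
    refine ⟨fun v => (hK.natEmbedding K (e v) : ℝ), ?_, fun v => (hK.natEmbedding K (e v)).2⟩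
    intro v w hvw
    have h1 := Subtype.ext hvw
    have h2 := (hK.natEmbedding K).injective h1
    exact e.injective (Fin.ext h2)
  set kd : Sym2 V → ℝ := Sym2.lift ⟨fun v w => |k v - k w|, fun v w => abs_sub_comm _ _⟩ with hkd
  have hkd' : ∀ v w, kd s(v, w) = |k v - k w| := fun v w => rfl
  have hkd0 : ∀ e, 0 ≤ kd e := by
    intro e
    induction e using Sym2.ind with
    | _ v w => rw [hkd']; exact abs_nonneg _
  set N : ℝ := (Fintype.card V : ℝ) + 1 with hN
  have hN0 : 0 < N := by positivity
  set b : ℝ := η / (2 * N) with hb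
  have hb0 : 0 < b := by positivity
  -- the open box
  set B : Set (G.edgeSet → ℝ) :=
    Set.pi univ (fun e : G.edgeSet => Ioo (kd e) (Real.sqrt (kd e ^ 2 + b ^ 2))) with hB
  have hBopen : IsOpen B := isOpen_set_pi finite_univ (fun _ _ => isOpen_Ioo)
  have hBne : B.Nonempty := by
    rw [hB, univ_pi_nonempty_iff]
    intro e
    rw [nonempty_Ioo]
    apply Real.lt_sqrt_of_sq_lt
    have : 0 < b ^ 2 := by positivity
    linarith
  have hBsub : B ⊆ treeDistSet G (prodSet K L) := by
    intro d hd
    have hd' : ∀ e : G.edgeSet, kd e < d e ∧ d e < Real.sqrt (kd e ^ 2 + b ^ 2) := fun e =>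
      hd e (mem_univ e)
    -- the vertical differences
    classical
    set a : Sym2 V → ℝ := fun e =>
      if h : e ∈ G.edgeSet then Real.sqrt (d ⟨e, h⟩ ^ 2 - kd e ^ 2) else 0 with ha
    have ha0 : ∀ e, 0 ≤ a e := by
      intro e
      simp only [ha]
      split_ifs
      · exact Real.sqrt_nonneg _
      · exact le_rfl
    have hab : ∀ e, a e ≤ b := by
      intro e
      simp only [ha]
      split_ifs with h
      · obtain ⟨h1, h2⟩ := hd' ⟨e, h⟩
        simp only at h1 h2
        have h3 : 0 ≤ d ⟨e, h⟩ := (hkd0 e).trans h1.le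
        have h4 : d ⟨e, h⟩ ^ 2 < kd e ^ 2 + b ^ 2 := (Real.lt_sqrt h3).1 h2
        refine Real.sqrt_le_iff.2 ⟨hb0.le, by linarith⟩
      · exact hb0.le
    obtain ⟨u, hu1, hu2⟩ := potential G hG a b ha0 hab
    have hu3 : ∀ v, |u v| < η := by
      intro v
      obtain ⟨h1, h2⟩ := hu1 v
      rw [abs_of_nonneg h1]
      refine h2.trans_lt ?_
      rw [hb]
      have h5 : (Fintype.card V : ℝ) * (η / (2 * N)) ≤ N * (η / (2 * N)) := by
        apply mul_le_mul_of_nonneg_right _ (by positivity)
        rw [hN]; linarith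
      have h6 : N * (η / (2 * N)) = η / 2 := by field_simp
      linarith
    obtain ⟨t, ht⟩ := hcom V le_rfl u hu3
    refine ⟨fun v => WithLp.toLp 2 ![k v, t + u v], ?_, ?_, ?_⟩
    · intro v w hvw
      have h1 := congrFun (congrArg (fun z : EuclideanSpace ℝ (Fin 2) => (z : Fin 2 → ℝ)) hvw) 0
      simp at h1
      exact hk.1 h1
    · intro v
      exact ⟨by simpa using hk.2 v, by simpa using ht v⟩
    · intro v w h
      have h1 := hu2 v w h
      rw [EuclideanSpace.dist_eq]
      simp only [Fin.sum_univ_two, Real.dist_eq, Matrix.cons_val_zero, Matrix.cons_val_one]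
      have h2 : t + u v - (t + u w) = u v - u w := by ring
      rw [h2, h1]
      obtain ⟨h3, h4⟩ := hd' ⟨s(v, w), h⟩
      simp only at h3 h4
      have h5 : a s(v, w) = Real.sqrt (d ⟨s(v, w), h⟩ ^ 2 - kd s(v, w) ^ 2) := by
        simp only [ha]
        rw [dif_pos ((SimpleGraph.mem_edgeSet G).2 h)]
      have h6 : 0 ≤ d ⟨s(v, w), h⟩ := (hkd0 _).trans h3.le
      rw [h5, ← hkd' v w, Real.sq_sqrt]
      · rw [add_sub_cancel, Real.sqrt_sq h6]
      · have := pow_le_pow_left₀ (hkd0 s(v, w)) h3.le 2
        linarith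
  obtain ⟨d, hd⟩ := hBne
  exact ⟨d, mem_interior.2 ⟨B, hBsub, hBopen, hd⟩⟩

/-- The question as posed: every Cantor set `K` has a Cantor set `L` such that the tree distance set
of `K × L` has nonempty interior for every finite tree simultaneously. -/
theorem question : ∀ K : Set ℝ, IsCantorSet K → ∃ L : Set ℝ, IsCantorSet L ∧
    ∀ (V : Type) [Fintype V] (G : SimpleGraph V), G.IsTree →
      (interior (treeDistSet G (prodSet K L))).Nonempty := by
  intro K hK
  obtain ⟨L, hL, h⟩ := result
  refine ⟨L, hL, h K ?_⟩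
  obtain ⟨x, hx⟩ := hK.1
  intro hfin
  have h1 := hK.2.2.2 x hx
  exact (accPt_iff_frequently_nhdsNE.1 h1) (by
    have : IsClosed (K \ {x}) := (hfin.sdiff).isClosed
    have h2 : (K \ {x})ᶜ ∈ 𝓝 x := this.isOpen_compl.mem_nhds (by simp)
    rw [eventually_nhdsWithin_iff]
    filter_upwards [h2] with y hy hyx hyK
    exact hy ⟨hyK, hyx⟩)

end Pool.Agent.Results.MP_d100af_an.OnePartner
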